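import Pool.Agent.Helper49.QI.Defs

/-!
# QI: a matrix which is hyperbolic on two basis vectors and zero elsewhere modulo `P`
-/

set_option autoImplicit false

namespace Pool.Agent.Helper43.QI

open Matrix Pool.Agent.Helper49.QU

/-- the vector with the entries `a` at `x` and `b` at `y` -/
def two {R : Type*} [CommRing R] {M : ℕ} (x y : Fin M) (a b : R) (j : Fin M) : R :=
  if j = x then a else if j = y then b else 0

theorem splitAt_of_forms {R : Type*} [CommRing R] {M : ℕ} (B : Matrix (Fin M) (Fin M) R)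
    (hB : B.IsSymm) (P : R) (x y : Fin M) (hxy : x ≠ y)
    (hz : ∀ u v, u ≠ x → u ≠ y → P ∣ B u v) (c a₁ b₁ a₂ b₂ : R) (hc : ¬ P ∣ c)
    (h1 : P ∣ 2 * c * B x x - (a₁ * a₂ + a₁ * a₂))
    (h2 : P ∣ 2 * c * B x y - (a₁ * b₂ + b₁ * a₂))
    (h3 : P ∣ 2 * c * B y y - (b₁ * b₂ + b₁ * b₂)) (h4 : ¬ P ∣ a₁ * b₂ - b₁ * a₂) :
    SplitAt B P := by
  have hs : ∀ u v, B u v = B v u := fun u v => (hB.apply u v).symm
  have ex : ∀ a b : R, two x y a b x = a := fun a b => by simp [two]
  have ey : ∀ a b : R, two x y a b y = b := fun a b => by simp [two, hxy.symm]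
  have eu : ∀ (a b : R) (u : Fin M), u ≠ x → u ≠ y → two x y a b u = 0 := by
    intro a b u hx hy
    simp [two, hx, hy]
  refine ⟨c, two x y a₁ b₁, two x y a₂ b₂, hc, ?_, x, y, ?_⟩
  · intro j k
    by_cases hj : j ≠ x ∧ j ≠ y
    · rw [eu _ _ j hj.1 hj.2, eu _ _ j hj.1 hj.2, zero_mul, mul_zero, add_zero, sub_zero]
      exact (hz j k hj.1 hj.2).mul_left _
    by_cases hk : k ≠ x ∧ k ≠ y
    · rw [eu _ _ k hk.1 hk.2, eu _ _ k hk.1 hk.2, zero_mul, mul_zero, add_zero, sub_zero, hs j k]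
      exact (hz k j hk.1 hk.2).mul_left _
    have hj' : j = x ∨ j = y := by tauto
    have hk' : k = x ∨ k = y := by tauto
    rcases hj' with rfl | rfl <;> rcases hk' with rfl | rfl
    · rw [ex, ex]; exact h1
    · rw [ex, ey, ey, ex]; exact h2
    · rw [ex, ey, ey, ex, hs j k]
      have e : 2 * c * B k j - (b₁ * a₂ + a₁ * b₂) = 2 * c * B k j - (a₁ * b₂ + b₁ * a₂) := by ring
      rw [e]
      exact h2
    · rw [ey, ey]; exact h3
  · rw [ex, ey, ey, ex]
    exact h4

theorem splitAt_of_unit {R : Type*} [CommRing R] {M : ℕ} (B : Matrix (Fin M) (Fin M) R)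
    (hB : B.IsSymm) (P : R) (hP : Prime P) (h2 : IsUnit (2 : R)) (x y : Fin M) (hxy : x ≠ y)
    (hz : ∀ u v, u ≠ x → u ≠ y → P ∣ B u v) (g c : R) (hg : ¬ P ∣ g)
    (hdet : ¬ P ∣ B x x * B y y - B x y * B x y)
    (hsq : P ∣ g ^ 2 * (B x x * B y y - B x y * B x y) + c ^ 2) (ha : ¬ P ∣ B x x) :
    SplitAt B P := by
  have h2' : ¬ P ∣ 2 := fun h => hP.not_isUnit (isUnit_of_dvd_unit h h2)
  have hc : ¬ P ∣ c := by
    intro h
    have h1 : P ∣ g ^ 2 * (B x x * B y y - B x y * B x y) :=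
      (dvd_add_left (h.trans (dvd_pow_self c two_ne_zero))).1 hsq
    rcases hP.dvd_or_dvd h1 with h3 | h3
    · exact hg (hP.dvd_of_dvd_pow h3)
    · exact hdet h3
  refine splitAt_of_forms B hB P x y hxy hz (g ^ 2 * B x x) (g * B x x) (g * B x y + c)
    (g * B x x) (g * B x y - c) ?_ ?_ ?_ ?_ ?_
  · intro h
    rcases hP.dvd_or_dvd h with h3 | h3
    · exact hg (hP.dvd_of_dvd_pow h3)
    · exact ha h3
  · have e : 2 * (g ^ 2 * B x x) * B x x -
        (g * B x x * (g * B x x) + g * B x x * (g * B x x)) = 0 := by ring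
    rw [e]
    exact dvd_zero P
  · have e : 2 * (g ^ 2 * B x x) * B x y -
        (g * B x x * (g * B x y - c) + (g * B x y + c) * (g * B x x)) = 0 := by ring
    rw [e]
    exact dvd_zero P
  · have e : 2 * (g ^ 2 * B x x) * B y y -
        ((g * B x y + c) * (g * B x y - c) + (g * B x y + c) * (g * B x y - c)) =
        2 * (g ^ 2 * (B x x * B y y - B x y * B x y) + c ^ 2) := by ring
    rw [e]
    exact hsq.mul_left _
  · have e : g * B x x * (g * B x y - c) - (g * B x y + c) * (g * B x x) =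
        -(2 * (g * B x x * c)) := by ring
    rw [e, dvd_neg]
    intro h
    rcases hP.dvd_or_dvd h with h3 | h3
    · exact h2' h3
    · rcases hP.dvd_or_dvd h3 with h3 | h3
      · rcases hP.dvd_or_dvd h3 with h3 | h3
        · exact hg h3
        · exact ha h3
      · exact hc h3

/-- **B.** a matrix which is hyperbolic on two basis vectors and zero elsewhere modulo `P` -/
theorem splitAt_of_gram {R : Type*} [CommRing R] {M : ℕ} (B : Matrix (Fin M) (Fin M) R)
    (hB : B.IsSymm) (P : R) (hP : Prime P) (h2 : IsUnit (2 : R)) (x y : Fin M) (hxy : x ≠ y)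
    (hz : ∀ u v, u ≠ x → u ≠ y → P ∣ B u v) (g c : R) (hg : ¬ P ∣ g)
    (hdet : ¬ P ∣ B x x * B y y - B x y * B x y)
    (hsq : P ∣ g ^ 2 * (B x x * B y y - B x y * B x y) + c ^ 2) : SplitAt B P := by
  have hs : ∀ u v, B u v = B v u := fun u v => (hB.apply u v).symm
  by_cases ha : P ∣ B x x
  · by_cases hb : P ∣ B y y
    · have h2' : ¬ P ∣ 2 := fun h => hP.not_isUnit (isUnit_of_dvd_unit h h2)
      have hh : ¬ P ∣ B x y := by
        intro h
        exact hdet (dvd_sub (ha.mul_right _) (h.mul_right _))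
      refine splitAt_of_forms B hB P x y hxy hz 1 (2 * B x y) 0 0 1 ?_ ?_ ?_ ?_ ?_
      · exact fun h => hP.not_isUnit (isUnit_of_dvd_one h)
      · have e : 2 * 1 * B x x - (2 * B x y * 0 + 2 * B x y * 0) = 2 * B x x := by ring
        rw [e]
        exact ha.mul_left _
      · have e : 2 * 1 * B x y - (2 * B x y * 1 + 0 * 0) = 0 := by ring
        rw [e]
        exact dvd_zero P
      · have e : 2 * 1 * B y y - (0 * 1 + 0 * 1) = 2 * B y y := by ring
        rw [e]
        exact hb.mul_left _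
      · have e : 2 * B x y * 1 - 0 * 0 = 2 * B x y := by ring
        rw [e]
        intro h
        rcases hP.dvd_or_dvd h with h3 | h3
        · exact h2' h3
        · exact hh h3
    · refine splitAt_of_unit B hB P hP h2 y x hxy.symm (fun u v h h' => hz u v h' h) g c hg
        ?_ ?_ hb
      · rw [hs y x, mul_comm (B y y)]
        exact hdet
      · rw [hs y x, mul_comm (B y y)]
        exact hsq
  · exact splitAt_of_unit B hB P hP h2 x y hxy hz g c hg hdet hsq ha

end Pool.Agent.Helper43.QI
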